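import Pool.Agent.H925Z.Fat3

/-!
The Chudnovsky-Demailly bound for the Waldschmidt constant of every fat point scheme.

Idea: in characteristic `p`, a last nonvanishing Hasse derivative of multi-order `< q = p ^ e` of a
power of a form is a `q`-th power `g ^ q` up to a power of `x_0`; the orders of `g` at the points
are at least `t m_i + r` for one `r`, and lowering degree and orders `r` times gives the bound.
Characteristic zero follows by reduction modulo a prime.
-/

set_option autoImplicit false

universe u

namespace Pool.Agent.Results.MP_6bebef_ag.FatDemailly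

open Filter Topology Pool.Agent.H925Z.Fat

theorem result (K : Type u) [Field K] [IsAlgClosed K] (N : ℕ) (hN : 1 ≤ N)
    (Z : Projectivization K (Fin (N + 1) → K) →₀ ℕ) (hZ : Z ≠ 0) :
    ∃ L : ℝ, Tendsto (fun r : ℕ => (alpha (fatIdeal (r • Z)) : ℝ) / r) atTop (𝓝 L) ∧
      ∀ m : ℕ, 1 ≤ m → ((alpha (fatIdeal (m • Z)) : ℝ) + N - 1) / (m + N - 1) ≤ L :=
  waldschmidt_fat hN Z hZ

end Pool.Agent.Results.MP_6bebef_ag.FatDemailly
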